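import Pool.Agent.X169.NL.Sch
import Pool.Agent.Y522.Sch

/-!
# Smooth Schoenflies for 3-spheres bounding a nearly linear ball

A smooth 3-sphere in `ℝ⁴` (so in `S⁴`) is given together with a parametrization `H` of the
topological ball which it bounds: `H` is continuous and injective on a neighbourhood of the closed
unit ball, and a local diffeomorphism near the unit sphere. If, around the interior points where it
is not a local diffeomorphism, `H` is at all small scales within a small relative error of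
invertible affine maps (which may depend on the point and on the scale), then the sphere is
unknotted: some diffeomorphism of `ℝ⁴`, a linear isometry outside a compact set, agrees with `H` on
the unit sphere and maps the closed unit ball onto the ball bounded by the sphere.
-/

set_option autoImplicit false

open Set Filter Topology Metric Function
open scoped ContDiff

namespace Pool.Agent.Results.MP_6c077c_gt.NearlyLinearBall

/-- `ℝ⁴` -/
abbrev R4 : Type := EuclideanSpace ℝ (Fin 4)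

/-- `H` is a local diffeomorphism at `x`: smooth near `x`, with bijective derivative at `x` -/
def LocDiff (H : R4 → R4) (x : R4) : Prop :=
  (∀ᶠ y in 𝓝 x, ContDiffAt ℝ ∞ H y) ∧ Bijective (fderiv ℝ H x)

/-- `H` is nearly linear around `x` with error `ε`: for some `K` and `r`, for all points `p` in the
ball of radius `r` around `x` and all scales `0 < s ≤ r` there is a linear map `T`, stretching by
factors between some `l > 0` and `K * l`, such that `H q = H p + T (q - p)` for `|q - p| ≤ s` up to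
an error at most `ε * l * s`. -/
def NearlyLinear (H : R4 → R4) (ε : ℝ) (x : R4) : Prop :=
  ∃ K r : ℝ, 0 < r ∧ ∀ p : R4, ‖p - x‖ ≤ r → ∀ s : ℝ, 0 < s → s ≤ r →
    ∃ (T : R4 →L[ℝ] R4) (l : ℝ), 0 < l ∧ (∀ v, l * ‖v‖ ≤ ‖T v‖ ∧ ‖T v‖ ≤ K * (l * ‖v‖)) ∧
      ∀ q, ‖q - p‖ ≤ s → ‖H q - H p - T (q - p)‖ ≤ ε * l * s

/-- `G` is a diffeomorphism of `ℝ⁴`, equal to a linear isometry outside a compact set (so it extends
to a diffeomorphism of `S⁴`) -/
def StandardAtInfinity (G : R4 → R4) : Prop :=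
  ContDiff ℝ ∞ G ∧ (∃ K : R4 → R4, ContDiff ℝ ∞ K ∧ LeftInverse K G ∧ RightInverse K G) ∧
    ∃ (O : R4 ≃ₗᵢ[ℝ] R4) (R : ℝ), ∀ x, R ≤ ‖x‖ → G x = O x

theorem result : ∃ ε₀ : ℝ, 0 < ε₀ ∧
    ∀ (H : R4 → R4) (δ : ℝ) (_ : 0 < δ) (_ : ContinuousOn H (ball 0 (1 + δ)))
      (_ : InjOn H (ball 0 (1 + δ))) (_ : ∀ x, 1 ≤ ‖x‖ → ‖x‖ < 1 + δ → LocDiff H x)
      (_ : ∀ x, ‖x‖ < 1 → LocDiff H x ∨ NearlyLinear H ε₀ x),
      ∃ G : R4 → R4, StandardAtInfinity G ∧ (∀ x, ‖x‖ = 1 → G x = H x) ∧
        G '' closedBall 0 1 = H '' closedBall 0 1 := by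
  refine ⟨Pool.Agent.X169.NL.eps 4 (1 ^ 2), Pool.Agent.X169.NL.eps_pos 4 (by norm_num), ?_⟩
  intro H δ hδ hc hi hs h
  obtain ⟨G, O, R, hb, hL, h1, h2, h3⟩ := Pool.Agent.X169.NL.sch_fixed 4 H δ hδ hc hi
    (fun x hx hx' => Pool.Agent.Y522.LD_of_bij (hs x hx hx').1 (hs x hx hx').2)
    (fun x hx hn => by
      rcases h x hx with h' | h'
      · exact absurd (Pool.Agent.Y522.LD_of_bij h'.1 h'.2) hn
      · obtain ⟨K, r, hr, hK⟩ := h'
        refine ⟨K, r, hr, fun p hp s hs hs' => ?_⟩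
        obtain ⟨T, l, hl, hT, hT'⟩ := hK (p + x) (by rwa [add_sub_cancel_right]) s hs hs'
        refine ⟨T, l, hl, hT, fun q hq => ?_⟩
        have e := hT' (q + x) (by rwa [add_sub_add_right_eq_sub])
        rwa [add_sub_add_right_eq_sub] at e)
  obtain ⟨hG, hK⟩ := Pool.Agent.Y522.smooth_inverse hb hL
  exact ⟨G, ⟨hG, hK, O, R, h3⟩, h1, h2⟩

end Pool.Agent.Results.MP_6c077c_gt.NearlyLinearBall
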